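import Pool.Agent.H76.HeisB

set_option autoImplicit false

namespace Pool.Agent.Results.MP_9530fa_al.Counter

/-- The Fitting subgroup: the join of all normal nilpotent subgroups. -/
def fitting (G : Type) [Group G] : Subgroup G :=
  sSup {N : Subgroup G | N.Normal ∧ Group.IsNilpotent N}

/-- The irreducible complex characters of `G`. -/
def Irr (G : Type) [Group G] : Set (G → ℂ) :=
  {χ | ∃ (W : Type) (_ : AddCommGroup W) (_ : Module ℂ W) (_ : FiniteDimensional ℂ W)
    (ρ : Representation ℂ G W), ρ.IsIrreducible ∧ χ = ρ.character}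

/-- The central character of `χ` at the class sum of `g`. -/
noncomputable def omega {G : Type} [Group G] (χ : G → ℂ) (g : G) : ℂ :=
  ({h | IsConj g h}.ncard : ℂ) * χ g / χ 1

/-- The block containing `χ`: the irreducible characters whose central characters agree with that
of `χ` modulo the maximal ideal `m` of the ring of algebraic integers. -/
def block {G : Type} [Group G] (m : Ideal (integralClosure ℤ ℂ)) (χ : G → ℂ) : Set (G → ℂ) :=
  {ψ | ψ ∈ Irr G ∧ ∀ g, ∃ a ∈ m, (a : ℂ) = omega ψ g - omega χ g}

/-- A faithful `p`-block of positive defect with fewer than `p / log₂ p` characters, although `p`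
divides the index of the Fitting subgroup. -/
theorem result : ∃ (G : Type) (_ : Group G) (_ : Finite G) (p : ℕ), p.Prime ∧
    p ∣ (fitting G).index ∧
    ∀ m : Ideal (integralClosure ℤ ℂ), m.IsMaximal → (p : integralClosure ℤ ℂ) ∈ m →
      ∃ χ ∈ Irr G,
        (∀ g : G, (∀ ψ ∈ block m χ, ψ g = ψ 1) → g = 1) ∧
        (∃ ψ ∈ block m χ, ∃ n : ℕ, ψ 1 = n ∧ padicValNat p n < padicValNat p (Nat.card G)) ∧
        (block m χ).Finite ∧ ((block m χ).ncard : ℝ) < p / Real.logb 2 p := by
  open H76.HeisA H76.HeisB in
  have hF : 257 ∣ (fitting Γ).index := by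
    have h : fitting Γ ≤ pr.ker := sSup_le fun N hN => nil_le N hN.1 hN.2
    exact (ker_index ▸ Dvd.intro_left 16 rfl : 257 ∣ (pr : Γ →* H).ker.index).trans
      (Subgroup.index_dvd_of_le h)
  refine ⟨Γ, inferInstance, inferInstance, 257, by norm_num, hF, fun m hm hp => ?_⟩
  have hχ : (rho : Representation ℂ Γ _).character ∈ Irr Γ :=
    ⟨_, inferInstance, inferInstance, inferInstance, rho, rho_irr, rfl⟩
  have hB : (rho : Representation ℂ Γ _).character ∈ block m rho.character :=
    ⟨hχ, fun g => ⟨0, m.zero_mem, by simp⟩⟩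
  have hz : {h : Γ | IsConj z h} = {z} := by
    ext h
    simp only [Set.mem_ofPred_eq, isConj_iff, mul_z, mul_inv_cancel_right, exists_const,
      Set.mem_singleton_iff, eq_comm]
  have hb := bound (block m rho.character) (fun ψ h => h.1) (fun ψ h e => by
    obtain ⟨a, ha, h1⟩ := h.2 z
    have n1 := (central z mul_z z_sq ψ h.1).1
    have n2 := (central z mul_z z_sq _ hχ).1
    rw [omega, omega, hz, Set.ncard_singleton, e, char_z, Nat.cast_one, one_mul, one_mul,
      div_self n1, neg_div, div_self n2] at h1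
    have h2 : a = 2 := Subtype.ext (by rw [h1]; norm_num; rfl)
    apply hm.ne_top
    rw [Ideal.eq_top_iff_one]
    have := m.sub_mem hp (m.mul_mem_left 128 ha)
    rw [h2] at this
    convert this using 1
    norm_num)
  refine ⟨_, hχ, fun g hg => faithful hfaith g (hg _ hB), ⟨_, hB, _, char_one, ?_⟩, hb.1, ?_⟩
  · rw [padicValNat.eq_zero_of_not_dvd (fun h => by
      have := Nat.Prime.dvd_of_dvd_pow (by norm_num : Nat.Prime 257) h
      omega)]
    exact one_le_padicValNat_of_dvd Nat.card_pos.ne' (hF.trans (Subgroup.index_dvd_card _))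
  · exact lt_of_le_of_lt (b := (32 : ℝ)) (by exact_mod_cast hb.2) (by exact_mod_cast num)

end Pool.Agent.Results.MP_9530fa_al.Counter
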